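import Pool.Agent.helper17.HH.SpecR

/-!
# MP_07c750, project HH, row RCG (coarse graining)
-/

open scoped Pointwise

set_option autoImplicit false

namespace Pool.Agent.HH

/-- the cells of `G` of length `d` are covered by those of the local parts -/
theorem RCG_cover (d ρ : ℝ) (G : Finset ℝ) (hρ : 0 < ρ) :
    cov d G ≤ ∑ k ∈ cel ρ G, cov d (lc G ((k : ℝ) * ρ) ρ) := by
  unfold cov
  have hsub : cel d G ⊆ (cel ρ G).biUnion (fun k => cel d (lc G ((k : ℝ) * ρ) ρ)) := by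
    intro i hi
    unfold cel at hi
    rw [Finset.mem_image] at hi
    obtain ⟨x, hx, rfl⟩ := hi
    rw [Finset.mem_biUnion]
    refine ⟨⌊x / ρ⌋, ?_, ?_⟩
    · unfold cel
      exact Finset.mem_image_of_mem _ hx
    · unfold cel
      refine Finset.mem_image_of_mem _ ?_
      unfold lc
      rw [Finset.mem_filter]
      refine ⟨hx, ?_⟩
      have h1 : (⌊x / ρ⌋ : ℝ) * ρ ≤ x := by
        have := Int.floor_le (x / ρ)
        rwa [le_div_iff₀ hρ] at this
      have h2 : x < ((⌊x / ρ⌋ : ℝ) + 1) * ρ := by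
        have := Int.lt_floor_add_one (x / ρ)
        rwa [div_lt_iff₀ hρ] at this
      rw [abs_le]
      constructor <;> nlinarith
  exact (Finset.card_le_card hsub).trans Finset.card_biUnion_le

theorem RCG_proof (h1 : RLO_stmt) : RCG_stmt := by
  obtain ⟨C, hC1, hC⟩ := h1
  refine ⟨C, hC1, ?_⟩
  intro G δ D d ρ x T hδ hδd hdρ hρ1 hD hG hT
  have hd : 0 < d := lt_of_lt_of_le hδ hδd
  have hρ : 0 < ρ := lt_of_lt_of_le hd hdρ
  have hDp : 0 < D := lt_of_lt_of_le one_pos hD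
  have hCp : 0 < C := lt_of_lt_of_le one_pos hC1
  have hd1 : d ≤ 1 := hdρ.trans hρ1
  set E : Finset ℝ := G + dil x G with hE
  have hT0 : 0 ≤ T := le_trans (Nat.cast_nonneg _) hT
  have hEG : E + G = G + E := add_comm _ _
  -- number of cells of length ρ
  have hn : (cov ρ G : ℝ) ≤ D * Real.sqrt (1 / ρ) := by
    have h := hG.up ρ 1 0 (hδd.trans hdρ) hρ1 le_rfl
    have hlc : lc G 0 1 = G := by
      unfold lc
      rw [Finset.filter_eq_self]
      intro y hy
      obtain ⟨h0, h1'⟩ := hG.i y hy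
      rw [sub_zero, abs_of_nonneg h0]
      exact h1'
    rwa [hlc] at h
  have hlo := hG.lo d hδd hd1
  -- the sum
  have hsum : (cov d G : ℝ) * cov ρ E ≤ (cov ρ G : ℝ) * (C * T) := by
    have hcv : (cov d G : ℝ) ≤ ∑ k ∈ cel ρ G, (cov d (lc G ((k : ℝ) * ρ) ρ) : ℝ) := by
      have := RCG_cover d ρ G hρ
      exact_mod_cast this
    calc (cov d G : ℝ) * cov ρ E ≤ (∑ k ∈ cel ρ G, (cov d (lc G ((k : ℝ) * ρ) ρ) : ℝ)) * cov ρ E :=
          mul_le_mul_of_nonneg_right hcv (Nat.cast_nonneg _)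
      _ = ∑ k ∈ cel ρ G, (cov d (lc G ((k : ℝ) * ρ) ρ) : ℝ) * cov ρ E := by rw [Finset.sum_mul]
      _ ≤ ∑ k ∈ cel ρ G, (C * T) := by
          refine Finset.sum_le_sum ?_
          intro k _
          refine (hC d ρ ((k : ℝ) * ρ) E G hd hdρ).trans ?_
          rw [hEG]
          exact mul_le_mul_of_nonneg_left hT hCp.le
      _ = (cov ρ G : ℝ) * (C * T) := by
          rw [Finset.sum_const, nsmul_eq_mul]
          rfl
  have hs1 : Real.sqrt (1 / d) = 1 / Real.sqrt d := by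
    rw [Real.sqrt_div zero_le_one, Real.sqrt_one]
  have hs2 : Real.sqrt (1 / ρ) = 1 / Real.sqrt ρ := by
    rw [Real.sqrt_div zero_le_one, Real.sqrt_one]
  have hs3 : Real.sqrt (d / ρ) = Real.sqrt d / Real.sqrt ρ := Real.sqrt_div hd.le ρ
  have hsd : 0 < Real.sqrt d := Real.sqrt_pos.2 hd
  have hsρ : 0 < Real.sqrt ρ := Real.sqrt_pos.2 hρ
  have hkey : (1 / D * (1 / Real.sqrt d)) * (cov ρ E : ℝ) ≤ (D * (1 / Real.sqrt ρ)) * (C * T) := by
    calc (1 / D * (1 / Real.sqrt d)) * (cov ρ E : ℝ) ≤ (cov d G : ℝ) * cov ρ E := by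
          refine mul_le_mul_of_nonneg_right ?_ (Nat.cast_nonneg _)
          rw [← hs1]
          exact hlo
      _ ≤ (cov ρ G : ℝ) * (C * T) := hsum
      _ ≤ (D * (1 / Real.sqrt ρ)) * (C * T) := by
          refine mul_le_mul_of_nonneg_right ?_ (mul_nonneg hCp.le hT0)
          rw [← hs2]
          exact hn
  rw [hs3]
  have h5 : (cov ρ E : ℝ) = (D * Real.sqrt d) * ((1 / D * (1 / Real.sqrt d)) * (cov ρ E : ℝ)) := by
    field_simp
  rw [h5]
  calc (D * Real.sqrt d) * ((1 / D * (1 / Real.sqrt d)) * (cov ρ E : ℝ))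
      ≤ (D * Real.sqrt d) * ((D * (1 / Real.sqrt ρ)) * (C * T)) :=
        mul_le_mul_of_nonneg_left hkey (mul_nonneg hDp.le hsd.le)
    _ = C * D ^ 2 * T * (Real.sqrt d / Real.sqrt ρ) := by
        field_simp

end Pool.Agent.HH
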